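import Mathlib

set_option autoImplicit false

namespace Pool.Agent.Results.MP_6a2cdd_al.NotCoxeter

open scoped commutatorElement

universe u v

/-- the relators `u²` for a vertex `u` and `[u, v]` for adjacent vertices `u`, `v` -/
def racgRels {V : Type u} (Γ : SimpleGraph V) : Set (FreeGroup V) :=
  {w | (∃ a : V, w = FreeGroup.of a ^ 2) ∨
    ∃ a b : V, Γ.Adj a b ∧ w = ⁅FreeGroup.of a, FreeGroup.of b⁆}

/-- the right-angled Coxeter group of a graph (finite or not) -/
abbrev RACG {V : Type u} (Γ : SimpleGraph V) : Type u := PresentedGroup (racgRels Γ)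

/-- the standard generators -/
def gen {V : Type u} (Γ : SimpleGraph V) (a : V) : RACG Γ := PresentedGroup.of a

/-- reflections: conjugates of the standard generators -/
def IsReflection {V : Type u} {Γ : SimpleGraph V} (r : RACG Γ) : Prop :=
  ∃ (g : RACG Γ) (a : V), r = g * gen Γ a * g⁻¹

/-- generalised reflections: products of `k ≥ 1` distinct pairwise commuting reflections -/
def IsGeneralisedReflection {V : Type u} {Γ : SimpleGraph V} (s : RACG Γ) : Prop :=
  ∃ L : List (RACG Γ), L ≠ [] ∧ L.Nodup ∧ (∀ r ∈ L, IsReflection r) ∧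
    (∀ r ∈ L, ∀ r' ∈ L, r * r' = r' * r) ∧ s = L.prod

section basic

variable {V : Type u} {Γ : SimpleGraph V}

theorem gen_sq (a : V) : gen Γ a * gen Γ a = 1 := by
  have h : (PresentedGroup.mk (racgRels Γ)) (FreeGroup.of a ^ 2) = 1 :=
    PresentedGroup.one_of_mem (Or.inl ⟨a, rfl⟩)
  rw [map_pow, pow_two] at h
  exact h

theorem gen_comm {a b : V} (h : Γ.Adj a b) : gen Γ a * gen Γ b = gen Γ b * gen Γ a := by
  have h : (PresentedGroup.mk (racgRels Γ)) ⁅FreeGroup.of a, FreeGroup.of b⁆ = 1 :=
    PresentedGroup.one_of_mem (Or.inr ⟨a, b, h, rfl⟩)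
  rw [map_commutatorElement, commutatorElement_eq_one_iff_mul_comm] at h
  exact h

/-- homomorphisms out of a right-angled Coxeter group -/
def lift {K : Type v} [Group K] (f : V → K) (h1 : ∀ a, f a * f a = 1)
    (h2 : ∀ a b, Γ.Adj a b → f a * f b = f b * f a) : RACG Γ →* K :=
  PresentedGroup.toGroup (f := f) (by
    rintro w (⟨a, rfl⟩ | ⟨a, b, h, rfl⟩)
    · rw [map_pow, FreeGroup.lift_apply_of, pow_two, h1]
    · rw [map_commutatorElement, FreeGroup.lift_apply_of, FreeGroup.lift_apply_of,
        commutatorElement_eq_one_iff_mul_comm, h2 a b h])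

theorem lift_gen {K : Type v} [Group K] (f : V → K) (h1 : ∀ a, f a * f a = 1)
    (h2 : ∀ a b, Γ.Adj a b → f a * f b = f b * f a) (a : V) : lift f h1 h2 (gen Γ a) = f a :=
  PresentedGroup.toGroup.of _

theorem hom_ext {K : Type v} [Group K] (f g : RACG Γ →* K) (h : ∀ a, f (gen Γ a) = g (gen Γ a)) :
    f = g := PresentedGroup.ext h

open Classical in
/-- the homomorphism counting one generator -/
noncomputable def cnt (a : V) : RACG Γ →* Multiplicative (ZMod 2) :=
  lift (fun b => if b = a then Multiplicative.ofAdd 1 else 1)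
    (by intro b; by_cases h : b = a <;> simp [h]; decide) (by intros; exact mul_comm _ _)

theorem cnt_self (a : V) : cnt (Γ := Γ) a (gen Γ a) = Multiplicative.ofAdd 1 := by
  rw [cnt, lift_gen, if_pos rfl]

theorem cnt_ne {a b : V} (h : b ≠ a) : cnt (Γ := Γ) a (gen Γ b) = 1 := by
  rw [cnt, lift_gen, if_neg h]

theorem gen_ne_one (a : V) : gen Γ a ≠ 1 := by
  intro h
  have h2 := cnt_self (Γ := Γ) a
  rw [h, map_one] at h2
  exact absurd h2 (by decide)

theorem gen_inj {a b : V} (h : gen Γ a = gen Γ b) : a = b := by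
  by_contra hne
  have h2 := cnt_self (Γ := Γ) a
  rw [h, cnt_ne (Ne.symm hne)] at h2
  exact absurd h2 (by decide)

end basic

/-- an abstract obstruction to being a right-angled Coxeter group -/
theorem obstruction {H : Type v} [Group H]
    (k1 : ∀ a b : H, a * a = 1 → b * b = 1 → a ≠ 1 → b ≠ 1 → a * b = b * a → a = b)
    (k2 : ∀ a b c d : H, a * a = 1 → b * b = 1 → c * c = 1 → d * d = 1 → a ≠ 1 → b ≠ 1 → c ≠ 1 →
      d ≠ 1 → (a * b) * (c * d) = (c * d) * (a * b))
    (χ : H →* Multiplicative (ZMod 2 × ZMod 2 × ZMod 2)) (hχ : Function.Surjective χ)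
    {W : Type u} (Δ : SimpleGraph W) (e : H ≃* RACG Δ) : False := by
  have inv1 : ∀ w : W, e.symm (gen Δ w) * e.symm (gen Δ w) = 1 := by
    intro w
    rw [← map_mul, gen_sq, map_one]
  have inv2 : ∀ w : W, e.symm (gen Δ w) ≠ 1 := by
    intro w h
    exact gen_ne_one w ((map_eq_one_iff e.symm e.symm.injective).1 h)
  have noadj : ∀ a b, ¬ Δ.Adj a b := by
    intro a b hab
    have h := k1 (e.symm (gen Δ a)) (e.symm (gen Δ b)) (inv1 a) (inv1 b) (inv2 a) (inv2 b)
      (by rw [← map_mul, gen_comm hab, map_mul])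
    exact hab.ne (gen_inj (e.symm.injective h))
  by_cases h3 : ∃ x y z : W, x ≠ y ∧ x ≠ z ∧ y ≠ z
  · obtain ⟨x, y, z, hxy, hxz, hyz⟩ := h3
    classical
    let f : W → Equiv.Perm (Fin 4) := fun w =>
      if w = x then Equiv.swap 0 1 else if w = y then Equiv.swap 1 2 else
        if w = z then Equiv.swap 2 3 else 1
    have fx : f x = Equiv.swap 0 1 := by simp [f]
    have fy : f y = Equiv.swap 1 2 := by simp [f, hxy.symm]
    have fz : f z = Equiv.swap 2 3 := by simp [f, hxz.symm, hyz.symm]
    have f2 : ∀ w, f w * f w = 1 := by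
      intro w
      simp only [f]
      split_ifs <;> simp
    let F : RACG Δ →* Equiv.Perm (Fin 4) := lift f f2 (fun a b h => absurd h (noadj a b))
    have h := k2 _ _ _ _ (inv1 x) (inv1 y) (inv1 x) (inv1 z) (inv2 x) (inv2 y) (inv2 x) (inv2 z)
    have h' := congrArg (fun t => F (e t)) h
    simp only [map_mul, MulEquiv.apply_symm_apply] at h'
    simp only [F, lift_gen, fx, fy, fz] at h'
    exact absurd h' (by decide)
  · have h2 : ∃ p q : Multiplicative (ZMod 2 × ZMod 2 × ZMod 2),
        ∀ w, χ (e.symm (gen Δ w)) = p ∨ χ (e.symm (gen Δ w)) = q := by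
      by_cases hW : ∃ x : W, True
      · obtain ⟨x, -⟩ := hW
        by_cases hW2 : ∃ y, x ≠ y
        · obtain ⟨y, hy⟩ := hW2
          refine ⟨χ (e.symm (gen Δ x)), χ (e.symm (gen Δ y)), fun w => ?_⟩
          by_cases h1 : w = x
          · left; rw [h1]
          · by_cases h2 : w = y
            · right; rw [h2]
            · exact absurd ⟨x, y, w, hy, Ne.symm h1, Ne.symm h2⟩ h3
        · refine ⟨χ (e.symm (gen Δ x)), 1, fun w => ?_⟩
          left
          have : x = w := by
            by_contra hne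
            exact hW2 ⟨w, hne⟩
          rw [this]
      · exact ⟨1, 1, fun w => absurd ⟨w, trivial⟩ hW⟩
    obtain ⟨p, q, hpq⟩ := h2
    have key : ∀ p q : ZMod 2 × ZMod 2 × ZMod 2, ∃ c : ZMod 2 × ZMod 2 × ZMod 2, c ≠ 0 ∧
        c.1 * p.1 + c.2.1 * p.2.1 + c.2.2 * p.2.2 = 0 ∧
        c.1 * q.1 + c.2.1 * q.2.1 + c.2.2 * q.2.2 = 0 := by decide
    obtain ⟨c, hc, hp, hq⟩ := key (Multiplicative.toAdd p) (Multiplicative.toAdd q)
    let lam : Multiplicative (ZMod 2 × ZMod 2 × ZMod 2) →* Multiplicative (ZMod 2) :=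
      AddMonoidHom.toMultiplicative
        { toFun := fun x => c.1 * x.1 + c.2.1 * x.2.1 + c.2.2 * x.2.2
          map_zero' := by simp
          map_add' := by
            intro x y
            simp only [Prod.fst_add, Prod.snd_add]
            ring }
    have hlam : ∀ x, lam x = Multiplicative.ofAdd
        (c.1 * (Multiplicative.toAdd x).1 + c.2.1 * (Multiplicative.toAdd x).2.1 +
          c.2.2 * (Multiplicative.toAdd x).2.2) := fun x => rfl
    have hzero : (lam.comp χ).comp e.symm.toMonoidHom = 1 := by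
      apply hom_ext
      intro w
      show lam (χ (e.symm (gen Δ w))) = 1
      rcases hpq w with h | h
      · rw [h, hlam, hp]; rfl
      · rw [h, hlam, hq]; rfl
    have hall : ∀ x, lam x = 1 := by
      intro x
      obtain ⟨h, rfl⟩ := hχ x
      have := DFunLike.congr_fun hzero (e h)
      simpa using this
    have c1 := hall (Multiplicative.ofAdd (1, 0, 0))
    have c2 := hall (Multiplicative.ofAdd (0, 1, 0))
    have c3 := hall (Multiplicative.ofAdd (0, 0, 1))
    rw [hlam] at c1 c2 c3
    simp only [toAdd_ofAdd, mul_one, mul_zero, add_zero, zero_add] at c1 c2 c3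
    apply hc
    have d1 : c.1 = 0 := ofAdd_eq_one.1 c1
    have d2 : c.2.1 = 0 := ofAdd_eq_one.1 c2
    have d3 : c.2.2 = 0 := ofAdd_eq_one.1 c3
    exact Prod.ext d1 (Prod.ext d2 d3)

/-- the one-skeleton of the `n`-dimensional cross-polytope: `n` pairs of vertices, each vertex joined
to all the vertices of the other pairs -/
def crossPolytope (n : ℕ) : SimpleGraph (Fin n × Bool) where
  Adj x y := x.1 ≠ y.1
  symm := ⟨fun _ _ h => Ne.symm h⟩
  loopless := ⟨fun _ h => h rfl⟩

/-- the product of the standard generators over the maximal clique given by `k` -/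
def corner (n : ℕ) (k : Fin n → Bool) : RACG (crossPolytope n) :=
  ((List.finRange n).map fun i => gen (crossPolytope n) (i, k i)).prod

theorem corner_genRefl (n : ℕ) (hn : 1 ≤ n) (k : Fin n → Bool) :
    IsGeneralisedReflection (corner n k) := by
  refine ⟨(List.finRange n).map fun i => gen (crossPolytope n) (i, k i), ?_, ?_, ?_, ?_, rfl⟩
  · intro h
    have h2 := congrArg List.length h
    simp only [List.length_map, List.length_finRange, List.length_nil] at h2
    omega
  · apply (List.nodup_map_iff_inj_on (List.nodup_finRange n)).2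
    intro i _ j _ h
    exact congrArg Prod.fst (gen_inj h)
  · intro r hr
    obtain ⟨i, -, rfl⟩ := List.mem_map.1 hr
    exact ⟨1, (i, k i), by simp⟩
  · intro r hr r' hr'
    obtain ⟨i, -, rfl⟩ := List.mem_map.1 hr
    obtain ⟨j, -, rfl⟩ := List.mem_map.1 hr'
    by_cases h : i = j
    · rw [h]
    · exact gen_comm h

section cross

variable (n : ℕ)

/-- the infinite dihedral group -/
abbrev D : Type := DihedralGroup 0

/-- the values of the generators -/
def bv : Bool → D
  | false => DihedralGroup.sr 0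
  | true => DihedralGroup.sr 1

/-- the map to the product of infinite dihedral groups -/
def toD : RACG (crossPolytope n) →* (Fin n → D) :=
  lift (fun x => Pi.mulSingle x.1 (bv x.2))
    (by
      intro a
      rw [← Pi.mulSingle_mul]
      have : bv a.2 * bv a.2 = 1 := by
        cases a.2 <;> simp [bv]
      rw [this, Pi.mulSingle_one])
    (by
      intro a b h
      exact (Pi.mulSingle_commute (f := fun _ => D) h (bv a.2) (bv b.2)).eq)

/-- the map from an infinite dihedral group -/
def dlift {K : Type} [Group K] (p q : K) (hp : p * p = 1) (hq : q * q = 1) : D →* K :=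
  MonoidHom.mk' (fun x => match x with
    | DihedralGroup.r i => (p * q) ^ (show ℤ from i)
    | DihedralGroup.sr i => p * (p * q) ^ (show ℤ from i)) (by
    have hpi : p⁻¹ = p := inv_eq_of_mul_eq_one_left hp
    have hqi : q⁻¹ = q := inv_eq_of_mul_eq_one_left hq
    have h1 : ∀ i : ℤ, (p * q) ^ i * p = p * (p * q) ^ (-i) := by
      intro i
      have e : p * (p * q) ^ (-i) * p⁻¹ = (p * (p * q) * p⁻¹) ^ (-i) := by rw [conj_zpow]
      have e2 : p * (p * q) * p⁻¹ = (p * q)⁻¹ := by
        rw [mul_inv_rev, hpi, hqi, ← mul_assoc, hp, one_mul]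
      rw [e2, inv_zpow, zpow_neg, inv_inv] at e
      rw [← e, zpow_neg]
      group
    rintro (i | i) (j | j)
    · show (p * q) ^ (show ℤ from i + j) = (p * q) ^ (show ℤ from i) * (p * q) ^ (show ℤ from j)
      exact zpow_add _ _ _
    · show p * (p * q) ^ (show ℤ from j - i) =
        (p * q) ^ (show ℤ from i) * (p * (p * q) ^ (show ℤ from j))
      rw [← mul_assoc, h1, mul_assoc, ← zpow_add]
      congr 2
      show (j - i : ℤ) = -i + j
      ring
    · show p * (p * q) ^ (show ℤ from i + j) =
        p * (p * q) ^ (show ℤ from i) * (p * q) ^ (show ℤ from j)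
      rw [mul_assoc, ← zpow_add]
      rfl
    · show (p * q) ^ (show ℤ from j - i) =
        p * (p * q) ^ (show ℤ from i) * (p * (p * q) ^ (show ℤ from j))
      rw [← mul_assoc, mul_assoc p, h1, ← mul_assoc, hp, one_mul, ← zpow_add]
      congr 1
      show (j - i : ℤ) = -i + j
      ring)

theorem dlift_bv {K : Type} [Group K] (p q : K) (hp : p * p = 1) (hq : q * q = 1) (b : Bool) :
    dlift p q hp hq (bv b) = if b then q else p := by
  cases b
  · show p * (p * q) ^ (0 : ℤ) = _
    simp
  · show p * (p * q) ^ (1 : ℤ) = _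
    rw [zpow_one, ← mul_assoc, hp, one_mul]
    simp

theorem dlift_comm {K : Type} [Group K] (p q : K) (hp : p * p = 1) (hq : q * q = 1) (z : K)
    (h1 : Commute z p) (h2 : Commute z q) (x : D) : Commute z (dlift p q hp hq x) := by
  rcases x with (i | i)
  · exact (h1.mul_right h2).zpow_right _
  · exact h1.mul_right ((h1.mul_right h2).zpow_right _)

/-- the `i`-th factor -/
def fac (i : Fin n) : D →* RACG (crossPolytope n) :=
  dlift (gen (crossPolytope n) (i, false)) (gen (crossPolytope n) (i, true)) (gen_sq _) (gen_sq _)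

theorem fac_bv (i : Fin n) (b : Bool) : fac n i (bv b) = gen (crossPolytope n) (i, b) := by
  rw [fac, dlift_bv]
  cases b <;> simp

theorem fac_comm {i j : Fin n} (h : i ≠ j) (x y : D) : Commute (fac n i x) (fac n j y) := by
  have key : ∀ (b : Bool) (c : Bool),
      Commute (gen (crossPolytope n) (i, b)) (gen (crossPolytope n) (j, c)) := by
    intro b c
    exact gen_comm h
  have k2 : ∀ (b : Bool), Commute (gen (crossPolytope n) (i, b)) (fac n j y) := by
    intro b
    exact dlift_comm _ _ _ _ _ (key b false) (key b true) y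
  exact (dlift_comm _ _ _ _ _ (k2 false).symm (k2 true).symm x).symm

/-- the map back -/
def fromD : (Fin n → D) →* RACG (crossPolytope n) :=
  MonoidHom.noncommPiCoprod (fac n) (fun _ _ h x y => fac_comm n h x y)

theorem fromD_toD (g : RACG (crossPolytope n)) : fromD n (toD n g) = g := by
  have h : (fromD n).comp (toD n) = MonoidHom.id _ := by
    apply hom_ext
    rintro ⟨i, b⟩
    show fromD n (toD n (gen (crossPolytope n) (i, b))) = gen (crossPolytope n) (i, b)
    rw [toD, lift_gen, fromD, MonoidHom.noncommPiCoprod_mulSingle, fac_bv]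
  exact DFunLike.congr_fun h g

theorem toD_inj : Function.Injective (toD n) :=
  Function.LeftInverse.injective (fromD_toD n)

theorem toD_corner (k : Fin n → Bool) : toD n (corner n k) = fun i => bv (k i) := by
  have h := Finset.noncommProd_mulSingle (M := fun _ : Fin n => D) (fun i => bv (k i))
  have h2 : Finset.univ = (List.finRange n).toFinset := by
    ext i
    simp
  rw [corner, map_list_prod, List.map_map]
  have h3 : (⇑(toD n) ∘ fun i => gen (crossPolytope n) (i, k i)) =
      fun i => (Pi.mulSingle i (bv (k i)) : Fin n → D) := by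
    funext i
    show toD n (gen (crossPolytope n) (i, k i)) = _
    rw [toD, lift_gen]
  rw [h3, ← Finset.noncommProd_toFinset (List.finRange n)
    (fun i => (Pi.mulSingle i (bv (k i)) : Fin n → D))
    (fun i _ j _ _ => Pi.mulSingle_apply_commute (fun i => bv (k i)) i j) (List.nodup_finRange n)]
  exact (Finset.noncommProd_congr h2.symm (fun _ _ => rfl) _).trans h

/-- the image of the subgroup -/
def KK : Subgroup (Fin n → D) where
  carrier := {x | (∃ m : Fin n → ℤ, x = fun i => DihedralGroup.r (m i)) ∨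
    ∃ m : Fin n → ℤ, x = fun i => DihedralGroup.sr (m i)}
  one_mem' := Or.inl ⟨fun _ => 0, rfl⟩
  mul_mem' := by
    rintro _ _ (⟨a, rfl⟩ | ⟨a, rfl⟩) (⟨b, rfl⟩ | ⟨b, rfl⟩)
    · exact Or.inl ⟨fun i => a i + b i, rfl⟩
    · exact Or.inr ⟨fun i => b i - a i, rfl⟩
    · exact Or.inr ⟨fun i => a i + b i, rfl⟩
    · exact Or.inl ⟨fun i => b i - a i, rfl⟩
  inv_mem' := by
    rintro _ (⟨a, rfl⟩ | ⟨a, rfl⟩)
    · exact Or.inl ⟨fun i => - a i, rfl⟩
    · exact Or.inr ⟨a, rfl⟩

/-- the subgroup generated by the corners -/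
def HH : Subgroup (RACG (crossPolytope n)) := Subgroup.closure (Set.range (corner n))

theorem toD_mem (h : RACG (crossPolytope n)) (hh : h ∈ HH n) : toD n h ∈ KK n := by
  have : HH n ≤ (KK n).comap (toD n) := by
    rw [HH, Subgroup.closure_le]
    rintro _ ⟨k, rfl⟩
    show toD n (corner n k) ∈ KK n
    rw [toD_corner]
    refine Or.inr ⟨fun i => if k i then 1 else 0, ?_⟩
    funext i
    cases h : k i
    · simp only [h, Bool.false_eq_true, if_false]
      rfl
    · simp only [h, if_true]
      rfl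
  exact this hh

theorem inv_form {x : Fin n → D} (hx : x ∈ KK n) (h2 : x * x = 1) (h1 : x ≠ 1) :
    ∃ m : Fin n → ℤ, x = fun i => DihedralGroup.sr (m i) := by
  rcases hx with ⟨m, rfl⟩ | h
  · exfalso
    apply h1
    funext i
    have h3 := congrFun h2 i
    have h4 : DihedralGroup.r (n := 0) (m i + m i) = DihedralGroup.r 0 := h3
    have h5 : (m i + m i : ℤ) = 0 := DihedralGroup.r.inj h4
    have h6 : m i = 0 := by omega
    show DihedralGroup.r (n := 0) (m i) = DihedralGroup.r 0
    rw [h6]
    rfl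
  · exact h

theorem k1 (a b : RACG (crossPolytope n)) (ha : a ∈ HH n) (hb : b ∈ HH n) (ha2 : a * a = 1)
    (hb2 : b * b = 1) (ha1 : a ≠ 1) (hb1 : b ≠ 1) (hab : a * b = b * a) : a = b := by
  have e : ∀ {x : RACG (crossPolytope n)}, x * x = 1 → toD n x * toD n x = 1 := by
    intro x hx
    rw [← map_mul, hx, map_one]
  have e1 : ∀ {x : RACG (crossPolytope n)}, x ≠ 1 → toD n x ≠ 1 := by
    intro x hx h
    exact hx ((map_eq_one_iff (toD n) (toD_inj n)).1 h)
  obtain ⟨k, hk⟩ := inv_form n (toD_mem n a ha) (e ha2) (e1 ha1)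
  obtain ⟨l, hl⟩ := inv_form n (toD_mem n b hb) (e hb2) (e1 hb1)
  apply toD_inj n
  have h := congrArg (toD n) hab
  rw [map_mul, map_mul, hk, hl] at h
  rw [hk, hl]
  funext i
  have h2 : DihedralGroup.r (n := 0) (l i - k i) = DihedralGroup.r (k i - l i) := congrFun h i
  have h3 : (l i - k i : ℤ) = k i - l i := DihedralGroup.r.inj h2
  have h4 : k i = l i := by omega
  rw [h4]

theorem k2 (a b c d : RACG (crossPolytope n)) (ha : a ∈ HH n) (hb : b ∈ HH n) (hc : c ∈ HH n)
    (hd : d ∈ HH n) (ha2 : a * a = 1) (hb2 : b * b = 1) (hc2 : c * c = 1) (hd2 : d * d = 1)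
    (ha1 : a ≠ 1) (hb1 : b ≠ 1) (hc1 : c ≠ 1) (hd1 : d ≠ 1) :
    (a * b) * (c * d) = (c * d) * (a * b) := by
  have e : ∀ {x : RACG (crossPolytope n)}, x * x = 1 → toD n x * toD n x = 1 := by
    intro x hx
    rw [← map_mul, hx, map_one]
  have e1 : ∀ {x : RACG (crossPolytope n)}, x ≠ 1 → toD n x ≠ 1 := by
    intro x hx h
    exact hx ((map_eq_one_iff (toD n) (toD_inj n)).1 h)
  obtain ⟨ka, hka⟩ := inv_form n (toD_mem n a ha) (e ha2) (e1 ha1)
  obtain ⟨kb, hkb⟩ := inv_form n (toD_mem n b hb) (e hb2) (e1 hb1)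
  obtain ⟨kc, hkc⟩ := inv_form n (toD_mem n c hc) (e hc2) (e1 hc1)
  obtain ⟨kd, hkd⟩ := inv_form n (toD_mem n d hd) (e hd2) (e1 hd1)
  apply toD_inj n
  simp only [map_mul]
  rw [hka, hkb, hkc, hkd]
  funext i
  show DihedralGroup.r (n := 0) ((kb i - ka i : ℤ) + (kd i - kc i : ℤ) : ℤ) =
    DihedralGroup.r ((kd i - kc i : ℤ) + (kb i - ka i : ℤ) : ℤ)
  rw [add_comm]

/-- a homomorphism to an elementary abelian group -/
def chi (hn : 2 ≤ n) : RACG (crossPolytope n) →* Multiplicative (ZMod 2 × ZMod 2 × ZMod 2) :=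
  lift (fun x =>
      (if x = (⟨0, by omega⟩, false) then Multiplicative.ofAdd (1, 0, 0) else 1) *
      (if x = (⟨0, by omega⟩, true) then Multiplicative.ofAdd (1, 1, 0) else 1) *
      (if x = (⟨1, by omega⟩, true) then Multiplicative.ofAdd (0, 0, 1) else 1))
    (by
      intro x
      have : ∀ y : Multiplicative (ZMod 2 × ZMod 2 × ZMod 2), y * y = 1 := by decide
      exact this _)
    (by intros; exact mul_comm _ _)

theorem prod_one {K : Type} [CommGroup K] (k : Fin n → Bool) (a : Fin n) (b : Bool) (z : K) :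
    (∏ i, (if ((i, k i) : Fin n × Bool) = (a, b) then z else 1)) = if k a = b then z else 1 := by
  rw [Finset.prod_eq_single a]
  · simp [Prod.ext_iff]
  · intro i _ hi
    rw [if_neg]
    intro h
    exact hi (congrArg Prod.fst h)
  · intro h
    exact absurd (Finset.mem_univ a) h

theorem chi_corner (hn : 2 ≤ n) (k : Fin n → Bool) :
    chi n hn (corner n k) =
      (if k ⟨0, by omega⟩ = false then Multiplicative.ofAdd (1, 0, 0) else 1) *
      (if k ⟨0, by omega⟩ = true then Multiplicative.ofAdd (1, 1, 0) else 1) *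
      (if k ⟨1, by omega⟩ = true then Multiplicative.ofAdd (0, 0, 1) else 1) := by
  rw [corner, map_list_prod, List.map_map, ← Fin.prod_univ_def]
  simp only [Function.comp_apply, chi, lift_gen, Finset.prod_mul_distrib, prod_one]

theorem chi_surj (hn : 2 ≤ n) :
    Function.Surjective ((chi n hn).comp (HH n).subtype) := by
  have mem : ∀ k, corner n k ∈ HH n := fun k => Subgroup.subset_closure ⟨k, rfl⟩
  obtain ⟨g0, h0⟩ : ∃ g : HH n, ((chi n hn).comp (HH n).subtype) g =
      Multiplicative.ofAdd (1, 0, 0) := by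
    refine ⟨⟨_, mem (fun _ => false)⟩, ?_⟩
    show chi n hn (corner n _) = _
    rw [chi_corner]
    simp
  obtain ⟨g1, h1⟩ : ∃ g : HH n, ((chi n hn).comp (HH n).subtype) g =
      Multiplicative.ofAdd (1, 1, 0) := by
    refine ⟨⟨_, mem (fun i => if i = ⟨0, by omega⟩ then true else false)⟩, ?_⟩
    show chi n hn (corner n _) = _
    rw [chi_corner]
    simp
  obtain ⟨g2, h2⟩ : ∃ g : HH n, ((chi n hn).comp (HH n).subtype) g =
      Multiplicative.ofAdd (1, 0, 1) := by
    refine ⟨⟨_, mem (fun i => if i = ⟨1, by omega⟩ then true else false)⟩, ?_⟩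
    show chi n hn (corner n _) = _
    rw [chi_corner]
    simp
    rfl
  have key : ∀ x : Multiplicative (ZMod 2 × ZMod 2 × ZMod 2), ∃ a b c : Fin 2,
      x = Multiplicative.ofAdd (1, 0, 0) ^ (a : ℕ) * Multiplicative.ofAdd (1, 1, 0) ^ (b : ℕ) *
        Multiplicative.ofAdd (1, 0, 1) ^ (c : ℕ) := by decide
  intro x
  obtain ⟨a, b, c, hx⟩ := key x
  refine ⟨g0 ^ (a : ℕ) * g1 ^ (b : ℕ) * g2 ^ (c : ℕ), ?_⟩
  rw [map_mul, map_mul, map_pow, map_pow, map_pow, h0, h1, h2, hx]

theorem not_racg (hn : 2 ≤ n) {W : Type u} (Δ : SimpleGraph W) : IsEmpty (HH n ≃* RACG Δ) := by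
  constructor
  intro e
  refine obstruction ?_ ?_ ((chi n hn).comp (HH n).subtype) (chi_surj n hn) Δ e
  · rintro ⟨a, ha⟩ ⟨b, hb⟩ ha2 hb2 ha1 hb1 hab
    apply Subtype.ext
    exact k1 n a b ha hb (congrArg Subtype.val ha2) (congrArg Subtype.val hb2)
      (fun h => ha1 (Subtype.ext h)) (fun h => hb1 (Subtype.ext h)) (congrArg Subtype.val hab)
  · rintro ⟨a, ha⟩ ⟨b, hb⟩ ⟨c, hc⟩ ⟨d, hd⟩ ha2 hb2 hc2 hd2 ha1 hb1 hc1 hd1
    apply Subtype.ext
    exact k2 n a b c d ha hb hc hd (congrArg Subtype.val ha2) (congrArg Subtype.val hb2)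
      (congrArg Subtype.val hc2) (congrArg Subtype.val hd2)
      (fun h => ha1 (Subtype.ext h)) (fun h => hb1 (Subtype.ext h))
      (fun h => hc1 (Subtype.ext h)) (fun h => hd1 (Subtype.ext h))

end cross

/-- the dimension of the right-angled Coxeter group of a finite graph: the largest size of a
complete subgraph -/
noncomputable def dimension {V : Type} (Γ : SimpleGraph V) : ℕ := Γ.cliqueNum

theorem dimension_cross (n : ℕ) : dimension (crossPolytope n) = n := by
  apply le_antisymm
  · obtain ⟨s, hs⟩ := (crossPolytope n).exists_isNClique_cliqueNum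
    have h1 : (s.image Prod.fst).card = s.card := by
      apply Finset.card_image_of_injOn
      intro x hx y hy hxy
      by_contra hne
      exact hs.1 hx hy hne hxy
    have h2 : (s.image Prod.fst).card ≤ n := by
      have := Finset.card_le_univ (s.image Prod.fst)
      simpa using this
    rw [dimension, ← hs.2, ← h1]
    exact h2
  · have h : (crossPolytope n).IsNClique n
        (Finset.univ.image (fun i : Fin n => ((i, false) : Fin n × Bool))) := by
      constructor
      · intro x hx y hy hxy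
        simp only [Finset.coe_image, Finset.coe_univ, Set.image_univ, Set.mem_range] at hx hy
        obtain ⟨i, rfl⟩ := hx
        obtain ⟨j, rfl⟩ := hy
        intro h
        exact hxy (Prod.ext h rfl)
      · rw [Finset.card_image_of_injective _ (fun i j h => congrArg Prod.fst h)]
        simp
    exact h.isClique.card_le_cliqueNum.trans' h.card_eq.ge

/-- **Q1 has a negative answer in every dimension `n ≥ 2`.** There is a finite graph `Γ` whose
right-angled Coxeter group has dimension `n`, and a finite set `S` of generalised reflections of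
`C(Γ)` (each one a product of `n` pairwise commuting standard generators), such that the subgroup
generated by `S` is not isomorphic to `C(Δ)` for any graph `Δ`, finite or infinite. -/
theorem result (n : ℕ) (hn : 2 ≤ n) :
    ∃ (V : Type) (_ : Finite V) (Γ : SimpleGraph V), dimension Γ = n ∧
      ∃ S : Set (RACG Γ), S.Finite ∧ (∀ s ∈ S, IsGeneralisedReflection s) ∧
        ∀ (W : Type u) (Δ : SimpleGraph W), IsEmpty (Subgroup.closure S ≃* RACG Δ) := by
  refine ⟨Fin n × Bool, inferInstance, crossPolytope n, dimension_cross n, Set.range (corner n),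
    Set.finite_range _, ?_, ?_⟩
  · rintro _ ⟨k, rfl⟩
    exact corner_genRefl n (by omega) k
  · intro W Δ
    exact not_racg n hn Δ

end Pool.Agent.Results.MP_6a2cdd_al.NotCoxeter
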